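import Pool.Agent.H75.ST.StmtA
import Pool.Agent.H71.ST.Defs

/-! Part (a) of the structure theorem in the form of the final statement. -/

set_option autoImplicit false

open Set Pool.Agent.TK

namespace Pool.Agent.ST

theorem endsW_of_STA {C : Type} [MeasurableSpace C] {c0 : C} (hSTA : STA C c0) :
    Pool.Agent.H71.ST.STA C c0 := by
  intro b X hyp
  obtain ⟨O, hO, -, T, hT, h⟩ := hSTA b X hyp
  refine ⟨O, hO, T, hT, ?_⟩
  intro M hM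
  rcases h M hM with h1 | ⟨Q, hQ1, hQ2, hQ3, hQ4⟩
  · exact Or.inl h1
  refine Or.inr ⟨Q, hQ1, hQ2, fun w hw => ⟨(hQ3 w hw).1, (hQ3 w hw).2.1,
    fun B hB => (hQ3 w hw).2.2.2 B hB⟩, ?_⟩
  rintro a D ⟨v, hv, rfl⟩
  rcases hQ4 a v hv with ⟨w, hw, hwa⟩ | ⟨t, ht, hFI⟩
  · exact Or.inl ⟨w, hw, hwa.symm⟩
  · exact Or.inr ⟨t, ht, hFI⟩

end Pool.Agent.ST
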