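import Pool.Agent.H75.ST.StmtA

/-! FINW: there are only finitely many wild directions. -/

set_option autoImplicit false

open Set Pool.Agent.TK

namespace Pool.Agent.ST

theorem pf_FINW {C : Type} [MeasurableSpace C] {c0 : C} (hKL : KL C c0) (hFINB : FINB C c0)
    (hDIR : DIR C c0) : FINW C c0 := by
  classical
  intro b X hyp M hM
  by_contra hinf
  have hinf : {w | Wild c0 b M w}.Infinite := hinf
  have hV : Valid c0 M := hyp.val M hM
  -- the step: an infinite set of wild directions, a list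
  have hstep : ∀ (Q : Set (Set ℕ → Set ℕ)) (a : List ℕ), Q.Infinite →
      (∀ w ∈ Q, Wild c0 b M w) → ∃ D : Set ℕ, {w | w ∈ Q ∧ w (ms a) = D}.Infinite := by
    intro Q a hQ hQw
    by_contra hcon
    push Not at hcon
    have hfin := hFINB X b hyp M hM a
    apply hQ
    have hsub : Q ⊆ ⋃ D ∈ {D : Set ℕ | IsCp M (ms a) D ∧ ¬ small c0 b M a D},
        {w | w ∈ Q ∧ w (ms a) = D} := by
      intro w hw
      have hcp : IsCp M (ms a) (w (ms a)) := (hQw w hw).1.1 _ (ms_finite a)
      exact mem_iUnion₂.2 ⟨w (ms a), ⟨hcp, fun h =>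
        (hQw w hw).2.2.1 _ (ms_finite a) ⟨a, hcp, h⟩⟩, hw, rfl⟩
    exact (hfin.biUnion (fun D _ => hcon D)).subset hsub
  -- the sequence
  let P := {Q : Set (Set ℕ → Set ℕ) // Q.Infinite ∧ ∀ w ∈ Q, Wild c0 b M w}
  let nx : ℕ → P → P := fun n Q =>
    ⟨{w | w ∈ Q.1 ∧ w (ms (List.range n)) = (hstep Q.1 (List.range n) Q.2.1 Q.2.2).choose},
      (hstep Q.1 (List.range n) Q.2.1 Q.2.2).choose_spec, fun w hw => Q.2.2 w hw.1⟩
  let s : ℕ → P := fun n => Nat.rec (nx 0 ⟨{w | Wild c0 b M w}, hinf, fun w hw => hw⟩)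
    (fun n p => nx (n + 1) p) n
  let E : ℕ → Set ℕ := fun n => match n with
    | 0 => (hstep {w | Wild c0 b M w} (List.range 0) hinf (fun w hw => hw)).choose
    | n + 1 => (hstep (s n).1 (List.range (n + 1)) (s n).2.1 (s n).2.2).choose
  have hE : ∀ n, ∀ w ∈ (s n).1, w (ms (List.range n)) = E n := by
    intro n
    cases n with
    | zero => exact fun w hw => hw.2
    | succ n => exact fun w hw => hw.2
  have hss : ∀ n, (s (n + 1)).1 ⊆ (s n).1 := fun n w hw => hw.1
  have hEcp : ∀ n, IsCp M (ms (List.range n)) (E n) := by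
    intro n
    obtain ⟨w, hw⟩ := (s n).2.1.nonempty
    rw [← hE n w hw]
    exact ((s n).2.2 w hw).1.1 _ (ms_finite _)
  have hEsub : ∀ n, E (n + 1) ⊆ E n := by
    intro n
    obtain ⟨w, hw⟩ := (s (n + 1)).2.1.nonempty
    rw [← hE (n + 1) w hw, ← hE n w (hss n hw)]
    refine ((s (n + 1)).2.2 w hw).1.2 _ _ (ms_finite _) ?_
    intro x hx
    have hx' : x ∈ List.range n := hx
    rw [List.mem_range] at hx'
    show x ∈ List.range (n + 1)
    rw [List.mem_range]
    omega
  have hEint : (⋂ n, E n) = ∅ := by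
    rw [Set.eq_empty_iff_forall_notMem]
    intro x hx
    refine Set.disjoint_left.1 (hEcp (x + 1)).disj (Set.mem_iInter.1 hx (x + 1)) ?_
    show x ∈ List.range (x + 1)
    rw [List.mem_range]
    omega
  obtain ⟨w, hw, hw2⟩ := hDIR M hV E hEsub (fun n => (hEcp n).cd hV) hEint
  have hwE : ∀ n, w (ms (List.range n)) = E n := by
    intro n
    have h3 : E n ⊆ w (ms (List.range n)) := hw2 _ (ms_finite _) n (hEcp n).disj.symm
    obtain ⟨x, hx⟩ := (hEcp n).nonempty
    exact ((hw.1 _ (ms_finite _)).eq_of_inter hV (hEcp n) (h3 hx) hx)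
  obtain ⟨A, hA, hAs⟩ := hKL b X hyp M hM w hw
  -- a late stage
  obtain ⟨n, hn⟩ : ∃ n, A ⊆ ms (List.range n) := by
    obtain ⟨n, hn⟩ := hA.bddAbove
    refine ⟨n + 1, fun x hx => ?_⟩
    have := hn hx
    show x ∈ List.range (n + 1)
    rw [List.mem_range]
    omega
  -- a wild direction which is not `w`
  obtain ⟨w', hw', F0, hF0, hne⟩ : ∃ w' ∈ (s n).1, ∃ F : Set ℕ, F.Finite ∧ w' F ≠ w F := by
    by_contra hcon
    push Not at hcon
    have hsub : (s n).1 ⊆ {fun B => if B.Finite then w B else ∅} := by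
      intro w' hw'
      rw [mem_singleton_iff]
      funext B
      by_cases hB : B.Finite
      · rw [if_pos hB]; exact hcon w' hw' B hB
      · rw [if_neg hB]; exact ((s n).2.2 w' hw').2.2.2 B hB
    exact (s n).2.1 ((finite_singleton _).subset hsub)
  have hWild := (s n).2.2 w' hw'
  set F : Set ℕ := F0 ∪ ms (List.range n) with hFdef
  have hF : F.Finite := hF0.union (ms_finite _)
  have h1 : w' F ⊆ w' F0 := hWild.1.2 _ _ hF subset_union_left
  have h2 : w F ⊆ w F0 := hw.2 _ _ hF subset_union_left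
  have h3 : w' F ≠ w F := by
    intro h
    obtain ⟨x, hx⟩ := (hw.1 F hF).nonempty
    have hx' : x ∈ w' F := by rw [h]; exact hx
    exact hne ((hWild.1.1 F0 hF0).eq_of_inter hV (hw.1 F0 hF0) (h1 hx') (h2 hx))
  have h4 : w' F ⊆ w A := by
    refine (hWild.1.2 (ms (List.range n)) F hF subset_union_right).trans ?_
    rw [hE n w' hw', ← hwE n]
    exact hw.2 _ _ (ms_finite _) hn
  exact hWild.2.2.1 F hF (hAs F (w' F) ⟨hF, hWild.1.1 F hF, h3⟩ h4)

end Pool.Agent.ST
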