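import Pool.Agent.H75.ST.StmtA

/-! NTD: a flap which is not tame is a side of a wild direction. -/

set_option autoImplicit false

open Set Pool.Agent.TK

namespace Pool.Agent.ST

theorem pf_NTD {C : Type} [MeasurableSpace C] {c0 : C} (hTA1W : TA1W C c0) (hTA2 : TA2 C c0)
    (hDIR : DIR C c0) (hBAS : BAS C c0) (hCSX : CSX C c0) (hLEVEL : LEVEL C c0)
    (hMONO : MONO C c0) : NTD C c0 := by
  classical
  intro b X hX M hMX a D hD hT
  have hM : Valid c0 M := hX.val M hMX
  have hom : RLe C om b := ((RLe.lim om).trans (RLe.lim _)).trans hX.base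
  obtain ⟨E, l, hEs, hls, hE, hE0⟩ := hTA1W b X hX M hMX a D hD hT
  have hanti : ∀ m n, m ≤ n → E n ⊆ E m := by
    intro m n hmn
    induction n, hmn using Nat.le_induction with
    | base => exact Subset.rfl
    | succ n _ ih => exact (hE n).2.2.trans ih
  obtain ⟨w, hw, hw2⟩ := hDIR M hM E (fun n => (hE n).2.2) (fun n => (hE n).1.cd hM) hE0
  have hN : ∀ B : Set ℕ, B.Finite → ∃ N, Disjoint B (E N) := by
    intro B hB
    induction B, hB using Set.Finite.induction_on with
    | empty => exact ⟨0, by simp⟩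
    | insert hx hs ih =>
      rename_i x s
      obtain ⟨N, hN⟩ := ih
      have hxE : x ∉ ⋂ n, E n := by rw [hE0]; simp
      simp only [mem_iInter, not_forall] at hxE
      obtain ⟨k, hk⟩ := hxE
      refine ⟨max N k, ?_⟩
      rw [Set.disjoint_left]
      intro y hy hyE
      rcases hy with rfl | hy
      · exact hk (hanti k _ (le_max_right _ _) hyE)
      · exact Set.disjoint_left.1 hN hy (hanti N _ (le_max_left _ _) hyE)
  have hwl : ∀ n, w (ms (l n)) = E n := by
    intro n
    have h3 : E n ⊆ w (ms (l n)) := hw2 _ (ms_finite _) n (hE n).1.disj.symm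
    obtain ⟨x, hx⟩ := (hE n).1.nonempty
    exact (hw.1 _ (ms_finite _)).eq_of_inter hM (hE n).1 (h3 hx) hx
  have hDinf : (Dm M w).Infinite := by
    intro hDm
    obtain ⟨A0, hA0, _, hA02, hA03⟩ := hBAS M hM w hw hDm ∅ finite_empty
    obtain ⟨A, S, hc, hAA⟩ := hCSX M hM w hw (Dm M w) A0 hA0 hA02 Subset.rfl hA03
    obtain ⟨n0, hn0⟩ := hLEVEL b X hX M hMX w A S hc
    have hAf : ∀ n, (A n).Finite := by
      intro n
      induction n with
      | zero => exact hc.fin0
      | succ n ih => rw [hc.succ n]; exact ih.union (hc.next n).1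
    obtain ⟨N, hN'⟩ := hN (A n0) (hAf n0)
    have h1 : E N ⊆ w (A n0) := hw2 _ (hAf n0) N hN'
    exact (hE N).2.1 (hTA2 b hom M hM w A S hc n0 hn0 (l N) (E N) (hE N).1 h1 (hwl N))
  have hbig : ∀ B : Set ℕ, B.Finite → ¬ Sm c0 b M (w B) := by
    rintro B hB ⟨a', ha', hsm⟩
    obtain ⟨n, hn⟩ := hN B hB
    have h1 : E n ⊆ w B := hw2 B hB n hn
    have h2 := hMONO b hom M a' (l n) (w B) (E n) hM ha' (hE n).1 h1 hsm
    apply (hE n).2.1
    refine ⟨[], by simp, fun v hv _ => Or.inl ?_⟩
    rw [List.append_nil, ← (hE n).1.eq_cp hM hv]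
    exact ⟨l n, (hE n).1, h2⟩
  have heq : ∀ B : Set ℕ, B.Finite → (if B.Finite then w B else ∅) = w B := fun B hB =>
    if_pos hB
  refine ⟨fun B => if B.Finite then w B else ∅, ⟨⟨?_, ?_⟩, ?_, ?_, ?_⟩, ?_⟩
  · intro B hB
    simp only [heq B hB]
    exact hw.1 B hB
  · intro B B' hB' hsub
    simp only [heq B' hB', heq B (hB'.subset hsub)]
    exact hw.2 B B' hB' hsub
  · have : Dm M (fun B => if B.Finite then w B else ∅) = Dm M w := by
      ext v
      constructor
      · intro hv A hA hvA
        have := hv A hA hvA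
        simp only [heq A hA] at this
        exact this
      · intro hv A hA hvA
        simp only [heq A hA]
        exact hv A hA hvA
    rw [this]
    exact hDinf
  · intro B hB
    simp only [heq B hB]
    exact hbig B hB
  · intro B hB
    simp only [if_neg hB]
  · simp only [heq _ (ms_finite a)]
    rw [← hls, hwl 0, hEs]

end Pool.Agent.ST
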