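import Pool.Agent.H75.ST.StmtA
import Pool.Agent.H16.TK.CORE

/-! OCNT, CTB and STA: part (a) of the structure theorem. -/

set_option autoImplicit false

open Set Pool.Agent.TK

namespace Pool.Agent.ST

theorem pf_OCNT {C : Type} [MeasurableSpace C] {c0 : C} (hRTA : RTA C c0) (hCNT : CNT C c0) :
    OCNT C c0 := by
  intro b X hyp
  obtain ⟨d, hd⟩ := hRTA b X hyp
  obtain ⟨T, hT, hTv, hT2⟩ := hCNT X hyp.val hyp.tc d
  exact ⟨T, hT, hTv, fun M hM a v hv htame =>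
    hT2 M hM a v hv (hd M hM a _ (isCp_cp hv) htame).small⟩

theorem pf_CTB {C : Type} [MeasurableSpace C] {c0 : C} (hRTA : RTA C c0) (hGLU : GLU C c0) :
    CTB C c0 := by
  classical
  intro b X hyp
  obtain ⟨d, hd⟩ := hRTA b X hyp
  obtain ⟨T', hT', hT'X, hrep⟩ := hyp.tc (Rk.lim (W d))
  refine ⟨Prod.fst '' T', hT'.image _, ?_⟩
  intro M hM hall
  obtain ⟨t, ht, htl, hbf⟩ := hrep M hM []
  refine ⟨t.1, ⟨t, ht, rfl⟩, ?_⟩
  have h1 : FI M [] univ t.1 [] univ := by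
    apply hGLU d M t.1 [] [] univ univ (hyp.val M hM) (hyp.val _ (hT'X t ht)) rfl
    · intro v _; exact ⟨by simp, subset_univ _⟩
    · intro v _; exact ⟨by simp, subset_univ _⟩
    · simpa using hbf
    · intro v _
      have hcp : IsCp M (ms []) (cp M (ms []) v) := isCp_cp (by simp)
      exact hd M hM [] _ hcp (hall [] _ hcp)
  exact h1.iso

theorem pf_STA {C : Type} [MeasurableSpace C] {c0 : C} (hNTD : NTD C c0) (hFINW : FINW C c0)
    (hOCNT : OCNT C c0) (hCTB : CTB C c0) : STA C c0 := by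
  classical
  intro b X hyp
  obtain ⟨O, hO, hOv, hO2⟩ := hOCNT b X hyp
  obtain ⟨T, hT, hT2⟩ := hCTB b X hyp
  refine ⟨O, hO, hOv, T, hT, ?_⟩
  intro M hM
  by_cases hall : ∀ (a : List ℕ) (D : Set ℕ), IsCp M (ms a) D → Tame c0 b M a D
  · exact Or.inl (hT2 M hM hall)
  right
  push Not at hall
  obtain ⟨a, D, hD, hnt⟩ := hall
  obtain ⟨w0, hw0, -⟩ := hNTD b X hyp M hM a D hD hnt
  refine ⟨{w | Wild c0 b M w}, hFINW b X hyp M hM, ⟨w0, hw0⟩, fun w hw => hw, ?_⟩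
  intro a v hv
  by_cases ht : Tame c0 b M a (cp M (ms a) v)
  · exact Or.inr (hO2 M hM a v hv ht)
  · obtain ⟨w, hw, hwa⟩ := hNTD b X hyp M hM a _ (isCp_cp hv) ht
    exact Or.inl ⟨w, hw, hwa⟩

end Pool.Agent.ST
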