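import Pool.Agent.H75.ST.Asm
import Pool.Agent.H75.ST.FINW
import Pool.Agent.H75.ST.NTD
import Pool.Agent.H75.ST.STA
import Pool.Agent.H75.ST.TA1W
import Pool.Agent.H75.ST.EndsA
import Pool.Agent.H71.VK.FIM
import Pool.Agent.H96.VK.SWG
import Pool.Agent.H41.ST.FIN

/-! Assembly of the structure theorem. -/

set_option autoImplicit false

open Set Pool.Agent.TK Pool.Agent.H71.VK

namespace Pool.Agent.ST

theorem sta_all {C : Type} [MeasurableSpace C] {c0 : C} : STA C c0 := by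
  have hBAS : BAS C c0 := Pool.Agent.H48.TK.pf_BAS
  have hCOMP : COMP C c0 := pf_COMP
  have hCTR : CTR C := pf_CTR
  have hDIR : DIR C c0 := Pool.Agent.H48.TK.pf_DIR
  have hENX : ENX C c0 := pf_ENX
  have hFISUB : FISUB C c0 := pf_FISUB
  have hGLB : GLB C c0 := pf_GLB
  have hINF : INF C := pf_INF
  have hITR : ITR C c0 := pf_ITR
  have hNE1 : NE1 C c0 := pf_NE1
  have hNMI : NMI C c0 := pf_NMI
  have hNUN : NUN C c0 := pf_NUN hNMI
  have hPTH : PTH C c0 := pf_PTH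
  have hREL : REL C := pf_REL hCTR
  have hRPF : RPF C c0 := pf_RPF
  have hRST : RST C c0 := pf_RST
  have hSC1 : SC1 C := pf_SC1
  have hSC2 : SC2 C := pf_SC2
  have hSCO : SCO C := pf_SCO hSC1 hSC2
  have hTRA : TRA C c0 := pf_TRA
  have hUNC : UNC C c0 := pf_UNC
  have hVBT : VBT C c0 := pf_VBT hREL hCTR
  have hCNT : CNT C c0 := pf_CNT hREL
  have hEPM : EPM C c0 := pf_EPM hRST
  have hEXN : EXN C c0 := pf_EXN hTRA hINF
  have hGLA : GLA C c0 := pf_GLA hREL hCTR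
  have hGLU : GLU C c0 := pf_GLU hGLA hGLB
  have hMEA : MEA C c0 := pf_MEA hRPF
  have hMEM : MEM C c0 := pf_MEM hCOMP hRPF
  have hNEX : NEX C c0 := pf_NEX hNE1 hNMI hUNC
  have hNFA : NFA C c0 := pf_NFA hNMI hPTH
  have hRP1 : RP1 C c0 := pf_RP1 hTRA hRPF hCOMP hCTR hINF
  have hRSM : RSM C c0 := pf_RSM hCNT hSCO
  have hCSX : CSX C c0 := pf_CSX hNEX
  have hEGA : EGA C c0 := pf_EGA hENX hNFA
  have hEGB : EGB C c0 := pf_EGB hGLU hNFA
  have hEGC : EGC C c0 := pf_EGC hNFA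
  have hEGL : EGL C c0 := pf_EGL hEGA hEGB hEGC
  have hEKO : EKO C c0 := pf_EKO hENX hNUN hNFA
  have hEXB : EXB C c0 := pf_EXB hEXN hCNT hRPF hMEM
  have hFINB : FINB C c0 := pf_FINB hEXN hRPF hMEM hMEA
  have hLDR : LDR C c0 := pf_LDR hNFA
  have hLDX : LDX C c0 := pf_LDX hEXB hSCO
  have hLRF : LRF C c0 := pf_LRF hCOMP hRPF hCTR hNFA hLDR
  have hMMK : MMK C c0 := pf_MMK hRP1 hINF
  have hMSUB : MSUB C c0 := pf_MSUB hRP1 hFISUB hINF
  have hSPL : SPL C c0 := pf_SPL hFINB hEPM hMMK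
  have hLDD : LDD C c0 := pf_LDD hDIR hNFA hLRF
  have hLNX : LNX C c0 := pf_LNX hCTR hNFA hLRF
  have hMONO : MONO C c0 := pf_MONO hMSUB hMMK
  have hTA2 : TA2 C c0 := pf_TA2 hNFA hRST hMONO
  have hEVB : EVB C c0 := pf_EVB hNFA hMONO
  have hLUN : LUN C c0 := pf_LUN hRPF hMONO hNFA hLDR hLRF
  have hEDR : EDR C c0 := pf_EDR hEVB hVBT hCTR hMMK hNFA
  have hLDE : LDE C c0 := pf_LDE hLUN hLNX hLDD hLRF hNUN hITR hNFA hRPF hMONO hLDR
  have hLEVEL : LEVEL C c0 := pf_LEVEL hLDX hLDE hLDR hMEA hMEM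
  have hREN : REN C c0 := pf_REN hRSM hEDR hEKO hEGL hMONO hNFA
  have hRTA : RTA C c0 := pf_RTA hGLU hRSM hREN hMMK
  have hTA1W : TA1W C c0 := pf_TA1W hSPL
  have hNTD : NTD C c0 := pf_NTD hTA1W hTA2 hDIR hBAS hCSX hLEVEL hMONO
  have hFINW : FINW C c0 := pf_FINW kl_all hFINB hDIR
  exact pf_STA hNTD hFINW (pf_OCNT hRTA hCNT) (pf_CTB hRTA hGLU)

/-- the structure theorem -/
theorem st_final {C : Type} [MeasurableSpace C] [StandardBorelSpace C] {c0 : C} :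
    Pool.Agent.H71.ST.FINAL C c0 := by
  have hSCO : SCO C := pf_SCO pf_SC1 pf_SC2
  have hNFM : NFM C := pf_NFM
  exact Pool.Agent.H41.ST.final_of_sta pf_SWG (pf_FIM hSCO) pf_ITR pf_LOP hNFM
    (pf_TYC pf_THN hNFM) (endsW_of_STA sta_all)

end Pool.Agent.ST
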