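import Pool.Agent.H75.ST.Stmt

/-!
Statements for part (a) of the structure theorem for counterexamples.
-/

set_option autoImplicit false

open Set Pool.Agent.TK

namespace Pool.Agent.ST

variable {C : Type}

/-- wild directions: infinitely many dominating vertices, all sides are big (normalised on
infinite sets) -/
def Wild (c0 : C) (b : Rk) (M : St C) (w : Set ℕ → Set ℕ) : Prop :=
  IsDir M w ∧ (Dm M w).Infinite ∧ (∀ B : Set ℕ, B.Finite → ¬ Sm c0 b M (w B)) ∧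
    ∀ B : Set ℕ, ¬ B.Finite → w B = ∅

/-- TA1W: a decreasing sequence of flaps which are not tame, starting with a given one. -/
def TA1W (C : Type) (c0 : C) [MeasurableSpace C] : Prop :=
  ∀ (b : Rk) (X : Set (St C)), Hyp c0 b X → ∀ M ∈ X, ∀ (a : List ℕ) (D : Set ℕ),
    IsCp M (ms a) D → ¬ Tame c0 b M a D →
    ∃ (E : ℕ → Set ℕ) (l : ℕ → List ℕ), E 0 = D ∧ l 0 = a ∧ (∀ n, IsCp M (ms (l n)) (E n) ∧
      ¬ Tame c0 b M (l n) (E n) ∧ E (n + 1) ⊆ E n) ∧ (⋂ n, E n) = ∅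

/-- NTD: a flap which is not tame is a side of a wild direction. -/
def NTD (C : Type) (c0 : C) [MeasurableSpace C] : Prop :=
  ∀ (b : Rk) (X : Set (St C)), Hyp c0 b X → ∀ M ∈ X, ∀ (a : List ℕ) (D : Set ℕ),
    IsCp M (ms a) D → ¬ Tame c0 b M a D → ∃ w, Wild c0 b M w ∧ w (ms a) = D

/-- FINW: there are only finitely many wild directions. -/
def FINW (C : Type) (c0 : C) [MeasurableSpace C] : Prop :=
  ∀ (b : Rk) (X : Set (St C)), Hyp c0 b X → ∀ M ∈ X, {w | Wild c0 b M w}.Finite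

/-- OCNT: the tame flaps have countably many types. -/
def OCNT (C : Type) (c0 : C) [MeasurableSpace C] : Prop :=
  ∀ (b : Rk) (X : Set (St C)), Hyp c0 b X → ∃ O : Set (Fl C), O.Countable ∧
    (∀ t ∈ O, Valid c0 t.1 ∧ t.2.2 ∉ t.2.1) ∧
    ∀ M ∈ X, ∀ (a : List ℕ) (v : ℕ), v ∉ a → Tame c0 b M a (cp M (ms a) v) →
      ∃ t ∈ O, FI M a (cp M (ms a) v) t.1 t.2.1 t.set

/-- CTB: the structures all of whose flaps are tame have countably many types. -/
def CTB (C : Type) (c0 : C) [MeasurableSpace C] : Prop :=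
  ∀ (b : Rk) (X : Set (St C)), Hyp c0 b X → ∃ T : Set (St C), T.Countable ∧
    ∀ M ∈ X, (∀ (a : List ℕ) (D : Set ℕ), IsCp M (ms a) D → Tame c0 b M a D) →
      ∃ N ∈ T, Iso M N

/-- STA: the structure theorem, part (a). -/
def STA (C : Type) (c0 : C) [MeasurableSpace C] : Prop :=
  ∀ (b : Rk) (X : Set (St C)), Hyp c0 b X →
    ∃ O : Set (Fl C), O.Countable ∧ (∀ t ∈ O, Valid c0 t.1 ∧ t.2.2 ∉ t.2.1) ∧
    ∃ T : Set (St C), T.Countable ∧ ∀ M ∈ X, (∃ N ∈ T, Iso M N) ∨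
      ∃ Q : Set (Set ℕ → Set ℕ), Q.Finite ∧ Q.Nonempty ∧ (∀ w ∈ Q, Wild c0 b M w) ∧
        ∀ (a : List ℕ) (v : ℕ), v ∉ a → (∃ w ∈ Q, w (ms a) = cp M (ms a) v) ∨
          ∃ t ∈ O, FI M a (cp M (ms a) v) t.1 t.2.1 t.set

end Pool.Agent.ST
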