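import Pool.Agent.H75.ST.Stmt

/-! AB: a subsequence of the pieces is of type beta or of type alpha. -/

set_option autoImplicit false

open Set Pool.Agent.TK

namespace Pool.Agent.ST

private lemma ab_mono {C : Type} {M : St C} {B : Set ℕ} {x m m' : ℕ} (h : m ≤ m') :
    ball M B x m ⊆ ball M B x m' := by
  induction h with
  | refl => exact fun _ h => h
  | step _ ih => exact fun u hu => Or.inl (ih hu)

private lemma ab_reach {C : Type} {M : St C} {B : Set ℕ} {x u : ℕ} (h : u ∈ cp M B x) :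
    ∃ m, u ∈ ball M B x m := by
  obtain ⟨h1, h2⟩ := h
  induction h2 with
  | refl => exact ⟨0, rfl⟩
  | tail hb hs ih =>
    rename_i p q
    obtain ⟨m, hm⟩ := ih
    exact ⟨m + 1, Or.inr ⟨hs.2, p, hm, hs.1⟩⟩

/-- an infinite set of indices with different values -/
private lemma ab_inj {β : Type} (f : ℕ → β) (J : Set ℕ) (h : (f '' J).Infinite) :
    ∃ J' ⊆ J, J'.Infinite ∧ InjOn f J' := by
  obtain ⟨J', h1, h2⟩ := exists_subset_bijOn J f
  refine ⟨J', h1, ?_, h2.injOn⟩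
  intro hfin
  apply h
  rw [← h2.image_eq]
  exact hfin.image f

private lemma ab_alpha {C : Type} {c0 : C} (hPDB : PDB C c0) (hLS : LS C c0) {M : St C}
    (hM : Valid c0 M) {w : Set ℕ → Set ℕ} {E D : ℕ → Set ℕ} (H : PD M w E D) {x : ℕ}
    (hxB : x ∉ Dm M w) (hxD : ∀ i, x ∉ D i) (hU : ∀ i, D i ⊆ cp M (Dm M w) x) :
    ∃ k : ℕ → ℕ, StrictMono k ∧ ∃ n K, Alpha M w (fun i => D (k i)) x n K := by
  classical
  obtain ⟨hP1, hP2, -, -, hP5, -, -, hP8, hP9, -, -⟩ := hPDB M hM w E D H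
  set B := Dm M w with hB
  have hcv : ∀ (J : Set ℕ) (F : Set ℕ), F.Finite → {i ∈ J | ¬ D i ⊆ w F}.Finite := by
    intro J F hF
    obtain ⟨n, -, hn⟩ := hP9 F hF
    refine (finite_Iic n).subset ?_
    rintro i ⟨-, hi⟩
    by_contra hc
    exact hi ((hP5 i n (not_le.1 hc)).trans hn)
  have hDcd : ∀ i, Cd M (D i) := fun i => (H.cpD i).cd hM
  -- the claim
  have claim : ∀ (m : ℕ) (J : Set ℕ), J.Infinite → ∃ K : Set ℕ, Cd M K ∧
      Disjoint K (B ∪ ball M B x m) ∧ {i | i ∈ J ∧ D i ⊆ K}.Infinite := by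
    intro m J hJ
    have hfin := hLS M hM w H.dir univ D D (hcv univ)
      (fun i _ => ⟨(H.cpD i).nonempty, Subset.refl _, hDcd i⟩)
      (fun i _ j _ hij => hP1 i j hij) m x hxB
    set J1 : Set ℕ := J \ {i ∈ (univ : Set ℕ) | (ball M B x m ∩ D i).Nonempty} with hJ1
    have hJ1inf : J1.Infinite := hJ.sdiff hfin
    choose v hv using fun i => (H.cpD i).nonempty
    have hdis : ∀ i ∈ J1, Disjoint (D i) (B ∪ ball M B x m) := by
      intro i hi
      rw [Set.disjoint_left]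
      rintro u hu (h | h)
      · exact Set.disjoint_left.1 (hP2 i) hu h
      · exact hi.2 ⟨mem_univ _, u, h, hu⟩
    set K : ℕ → Set ℕ := fun i => cp M (B ∪ ball M B x m) (v i) with hK
    have hvn : ∀ i ∈ J1, v i ∉ B ∪ ball M B x m := fun i hi =>
      Set.disjoint_left.1 (hdis i hi) (hv i)
    have hKcp : ∀ i ∈ J1, IsCp M (B ∪ ball M B x m) (K i) := fun i hi => isCp_cp (hvn i hi)
    have hDK : ∀ i ∈ J1, D i ⊆ K i := fun i hi =>
      (hDcd i).subset hM (hKcp i hi) (hdis i hi) (hv i) (self_mem_cp (hvn i hi))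
    by_contra hcon
    push Not at hcon
    have himg : (K '' J1).Infinite := by
      intro hf
      apply hJ1inf
      have hsub : J1 ⊆ ⋃ L ∈ K '' J1, {i | i ∈ J ∧ D i ⊆ L} := by
        intro i hi
        exact mem_iUnion₂.2 ⟨K i, mem_image_of_mem K hi, hi.1, hDK i hi⟩
      refine (hf.biUnion ?_).subset hsub
      rintro L ⟨i, hi, rfl⟩
      exact hcon (K i) ((hKcp i hi).cd hM) (hKcp i hi).disj
    obtain ⟨J2, hJ2, hJ2inf, hinj⟩ := ab_inj K J1 himg
    have hf2 := hLS M hM w H.dir J2 D K (hcv J2)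
      (fun i hi => ⟨(H.cpD i).nonempty, hDK i (hJ2 hi), (hKcp i (hJ2 hi)).cd hM⟩)
      (fun i hi j hj hij => by
        rw [Set.disjoint_left]
        intro u hu hu'
        exact hij (hinj hi hj ((hKcp i (hJ2 hi)).eq_of_inter hM (hKcp j (hJ2 hj)) hu hu')))
      (m + 1) x hxB
    apply hJ2inf
    refine hf2.subset ?_
    intro i hi
    refine ⟨hi, ?_⟩
    have hi1 := hJ2 hi
    -- a path from `v i` to `x`
    have hcon1 : Conn M B (v i) x := Conn.symm hM (hU i (hv i))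
    have hvK : v i ∈ K i := self_mem_cp (hvn i hi1)
    have hxK : x ∉ K i := by
      intro h
      exact Set.disjoint_left.1 (hKcp i hi1).disj h (Or.inr (ab_mono (Nat.zero_le m) rfl))
    obtain ⟨y, z, hy, hz, hzB, hyz, -, -⟩ := hcon1.exit' hvK hxK
    have hzn : z ∈ Nb M (K i) := ⟨hz, y, hy, by rw [hM.1]; exact hyz⟩
    have hzb : z ∈ ball M B x m := by
      rcases (hKcp i hi1).nb hM hzn with h | h
      · exact absurd h hzB
      · exact h
    refine ⟨y, Or.inr ⟨?_, z, hzb, by rw [hM.1]; exact hyz⟩, hy⟩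
    exact fun h => Set.disjoint_left.1 (hKcp i hi1).disj hy (Or.inl h)
  -- bounds for the neighbours
  have hbound : ∀ i n0, ∃ n, n0 ≤ n ∧ Nb M (D i) ⊆ B ∪ ball M B x n := by
    intro i n0
    have hfin : (Nb M (D i)).Finite := (H.fin i).subset (hP8 i)
    have hpt : ∀ z ∈ Nb M (D i), ∃ m, z ∈ B ∪ ball M B x m := by
      intro z hz
      by_cases hzB : z ∈ B
      · exact ⟨0, Or.inl hzB⟩
      · obtain ⟨-, s, hs, hE⟩ := hz
        have h0 : Conn M B x s := hU i hs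
        have h1 : z ∈ cp M B x := h0.step (by rw [hM.1]; exact hE) hzB
        obtain ⟨m, hm⟩ := ab_reach h1
        exact ⟨m, Or.inr hm⟩
    choose! f hf using hpt
    obtain ⟨N, hN⟩ := (hfin.image f).bddAbove
    refine ⟨max n0 N, le_max_left _ _, ?_⟩
    intro z hz
    rcases hf z hz with h | h
    · exact Or.inl h
    · exact Or.inr (ab_mono ((hN (mem_image_of_mem f hz)).trans (le_max_right _ _)) h)
  -- the step
  have hstep : ∀ p : {J : Set ℕ // J.Infinite} × ℕ, ∃ q : ℕ × ℕ × Set ℕ, q.1 ∈ p.1.1 ∧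
      p.2 ≤ q.2.1 ∧ Cd M q.2.2 ∧ Disjoint q.2.2 (B ∪ ball M B x q.2.1) ∧
      Nb M (D q.1) ⊆ B ∪ ball M B x q.2.1 ∧
      {i | i ∈ p.1.1 ∧ q.1 < i ∧ D i ⊆ q.2.2}.Infinite := by
    rintro ⟨⟨J, hJ⟩, n0⟩
    obtain ⟨k, hk⟩ := hJ.nonempty
    obtain ⟨n, hn, hnb⟩ := hbound k n0
    have hJ' : (J \ Iic k).Infinite := hJ.sdiff (finite_Iic k)
    obtain ⟨K, hK1, hK2, hK3⟩ := claim n _ hJ'
    refine ⟨(k, n, K), hk, hn, hK1, hK2, hnb, hK3.mono ?_⟩
    rintro i ⟨⟨hi1, hi2⟩, hi3⟩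
    exact ⟨hi1, not_le.1 hi2, hi3⟩
  choose q hq1 hq2 hq3 hq4 hq5 hq6 using hstep
  let s : ℕ → {J : Set ℕ // J.Infinite} × ℕ := fun t =>
    Nat.rec (⟨univ, infinite_univ⟩, 0) (fun _ p => (⟨_, hq6 p⟩, (q p).2.1)) t
  have hs1 : ∀ t, (s (t + 1)).1.1 = {i | i ∈ (s t).1.1 ∧ (q (s t)).1 < i ∧ D i ⊆ (q (s t)).2.2} :=
    fun t => rfl
  have hs2 : ∀ t, (s (t + 1)).2 = (q (s t)).2.1 := fun t => rfl
  have hanti : ∀ i j, i ≤ j → (s j).1.1 ⊆ (s i).1.1 := by
    intro i j hij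
    induction hij with
    | refl => exact Subset.refl _
    | step _ ih =>
      refine Subset.trans ?_ ih
      rw [Nat.succ_eq_add_one, hs1]
      exact fun i hi => hi.1
  refine ⟨fun t => (q (s t)).1, strictMono_nat_of_lt_succ ?_, fun t => (q (s t)).2.1,
    fun t => (q (s t)).2.2, ?_⟩
  · intro t
    have := hq1 (s (t + 1))
    rw [hs1] at this
    exact this.2.1
  · refine ⟨hxB, fun i => hxD _, fun i => hU _, ?_, fun i => hq3 _, fun i => hq4 _, ?_,
      fun i => hq5 _⟩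
    · intro t
      have := hq2 (s (t + 1))
      rw [hs2] at this
      exact this
    · intro i j hij
      have h1 := hanti (i + 1) j hij (hq1 (s j))
      rw [hs1] at h1
      exact h1.2.2

theorem pf_AB {C : Type} {c0 : C} (hPDB : PDB C c0) (hLS : LS C c0) : AB C c0 := by
  classical
  intro M hM w E D H
  obtain ⟨hP1, hP2, -, -, -, -, -, -, -, -, hP11⟩ := hPDB M hM w E D H
  choose v hv using fun i => (H.cpD i).nonempty
  have hvB : ∀ i, v i ∉ Dm M w := fun i => Set.disjoint_left.1 (hP2 i) (hv i)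
  have hDU : ∀ i, D i ⊆ cp M (Dm M w) (v i) := fun i =>
    ((H.cpD i).cd hM).subset hM (isCp_cp (hvB i)) (hP2 i) (hv i) (self_mem_cp (hvB i))
  have : IsTrans (Set ℕ) (fun a b => a = b) := ⟨fun _ _ _ h h' => h.trans h'⟩
  obtain ⟨g, hg | hg⟩ := exists_increasing_or_nonincreasing_subseq (fun a b : Set ℕ => a = b)
    (fun i => cp M (Dm M w) (v i))
  · -- one component
    have hx : v (g 0) ∉ Dm M w := hvB _
    have hk0 : StrictMono (fun i => g (i + 1)) := fun i j hij =>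
      g.strictMono (by omega)
    have hpd := hP11 _ hk0
    obtain ⟨k, hk, n, K, hA⟩ := ab_alpha hPDB hLS hM hpd hx (fun i h => by
      have hne : g 0 ≠ g (i + 1) := fun h' => absurd (g.injective h') (by omega)
      exact Set.disjoint_left.1 (hP1 _ _ hne) (hv (g 0)) h) (fun i => by
      have h1 : cp M (Dm M w) (v (g 0)) = cp M (Dm M w) (v (g (i + 1))) := hg 0 (i + 1) (by omega)
      rw [h1]
      exact hDU _)
    exact ⟨fun i => g (k i + 1), hk0.comp hk, Or.inr ⟨v (g 0), n, K, hA⟩⟩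
  · -- different components
    refine ⟨g, g.strictMono, Or.inl ?_⟩
    have key : ∀ i j, i < j → ∀ u ∈ D (g i), ∀ z ∈ D (g j), ¬ Conn M (Dm M w) u z := by
      intro i j hij u hu z hz hc
      apply hg i j hij
      have h1 : cp M (Dm M w) u = cp M (Dm M w) (v (g i)) := cp_eq hM (hDU _ hu)
      have h2 : cp M (Dm M w) z = cp M (Dm M w) (v (g j)) := cp_eq hM (hDU _ hz)
      have h3 : cp M (Dm M w) z = cp M (Dm M w) u := cp_eq hM hc
      show cp M (Dm M w) (v (g i)) = cp M (Dm M w) (v (g j))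
      rw [← h1, ← h2, h3]
    intro i j hij u hu z hz hc
    rcases Nat.lt_or_gt_of_ne hij with h | h
    · exact key i j h u hu z hz hc
    · exact key j i h z hz u hu (hc.symm hM)

end Pool.Agent.ST
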