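import Pool.Agent.H75.ST.Stmt

/-! DA: decoding of type alpha. -/

set_option autoImplicit false

open Set Pool.Agent.TK

namespace Pool.Agent.ST

private lemma da_ball_mono {C : Type} {M : St C} {B : Set ℕ} {x m m' : ℕ} (h : m ≤ m') :
    ball M B x m ⊆ ball M B x m' := by
  induction h with
  | refl => exact fun _ h => h
  | step _ ih => exact fun u hu => Or.inl (ih hu)

theorem pf_DA {C : Type} [MeasurableSpace C] {c0 : C} (hSAT : SAT C c0) (hWLK : WLK C c0)
    (hFLT : FLT C c0) (hBIG : BIG C c0) (hLRF2 : LRF2 C c0) (hPDB : PDB C c0)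
    (hRPF : RPF C c0) (hLDR2 : LDR2 C c0) : DA C c0 := by
  intro b X M w E D a R r H x n K hA y hyinf w' hw' i
  have hRDu := hLDR2 b X M w E D a R r H
  have hRD : RD c0 M a D R y :=
    ⟨hRDu.val, fun i _ => hRDu.valR i (mem_univ _), fun i _ => hRDu.cpM i (mem_univ _),
      fun i _ => hRDu.cpR i (mem_univ _), fun i _ => hRDu.pi i (mem_univ _),
      fun i _ j _ => hRDu.disj i (mem_univ _) j (mem_univ _),
      fun i _ j _ => hRDu.disjA i (mem_univ _) j (mem_univ _)⟩
  have hM := hRD.val
  have hNv := (hRPF M a D R y hRD).1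
  obtain ⟨hP1, hP2, -, -, hP5, -, -, hP8, hP9, -, -⟩ := hPDB M hM w E D H.pd
  obtain ⟨-, -, hS3, hS4, -⟩ := hSAT b X M w E D a R r H y
  have hWL := hWLK b X M w E D a R r H y (Dm M w) (fun i _ => hP2 i) x hA.xB
    (fun i _ => hA.xD i)
  have hFL := hFLT b X M w E D a R r H y
  have hBG := hBIG b X M w E D a R r H y w' hw'
  generalize repl c0 M a D R y = N at *
  set B := Dm M w with hB
  have hED : ∀ j z, z ∈ E j → ∀ l, z ∉ D l := fun j z hz l hl =>
    Set.disjoint_left.1 (H.pd.av l j) hl hz
  constructor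
  · intro hi
    obtain ⟨hoff, hns⟩ := hBG i hi
    refine ⟨E i, D i, hoff, ?_, ?_, hns⟩
    · have hU : IsCp M B (cp M B x) := isCp_cp hA.xB
      have hUN := hS4 (cp M B x) (fun j _ => Or.inl (hA.inU j)) (hU.cd hM)
        ⟨x, self_mem_cp hA.xB, fun j _ => hA.xD j⟩
      intro u hu
      refine (hUN.2 x (self_mem_cp hA.xB) u (hA.inU i hu)).mono ?_
      intro z hz hzU
      exact Set.disjoint_left.1 hU.disj hzU hz
    · rw [hS3 i hi]
      intro z hz
      rcases hA.nb i hz with h | h
      · exact Or.inl h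
      · exact Or.inr ((hWL (n i) z (fun j _ => hED i z (hP8 i hz) j)).1 h)
  · rintro ⟨F, D', ⟨hF, hcp, hne⟩, hD'U, hnb, hns⟩
    by_contra hi
    apply hns
    have hnm : ∀ j, j ≤ i → n j ≤ n i := fun j hj => monotone_nat_of_le_succ hA.nmono hj
    have hKD : ∀ j, j ≤ i → Disjoint (D j) (K i) := by
      intro j hj
      rw [Set.disjoint_left]
      intro u hu huK
      obtain ⟨v, hv⟩ := (H.pd.cpD (i + 1)).nonempty
      have hvK := hA.sub i (i + 1) (Nat.lt_succ_self i) hv
      have hvD : v ∉ D j := fun h => Set.disjoint_left.1 (hP1 j (i + 1) (by omega)) h hv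
      obtain ⟨z, hz, hzK, -, -⟩ := ((hA.cdK i).2 u huK v hvK).exit hM hu hvD
      have hzK : z ∈ K i := by simpa using hzK
      have h1 : z ∈ B ∪ ball M B x (n i) := by
        rcases hA.nb j hz with h | h
        · exact Or.inl h
        · exact Or.inr (da_ball_mono (hnm j hj) h)
      exact Set.disjoint_left.1 (hA.avK i) hzK h1
    have hsat : ∀ j ∈ y, D j ⊆ K i ∨ Disjoint (D j) (K i) := by
      intro j _
      rcases Nat.lt_or_ge i j with h | h
      · exact Or.inl (hA.sub i j h)
      · exact Or.inr (hKD j h)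
    have hout : ∃ u ∈ K i, ∀ j ∈ y, u ∉ D j := by
      obtain ⟨u, hu⟩ := (H.pd.cpD (i + 1)).nonempty
      obtain ⟨v, hv⟩ := (H.pd.cpD (i + 2)).nonempty
      have hvD : v ∉ D (i + 1) := fun h => Set.disjoint_left.1 (hP1 (i + 1) (i + 2) (by omega)) h hv
      obtain ⟨z, hz, hzK, -, -⟩ := ((hA.cdK i).2 u (hA.sub i (i + 1) (by omega) hu) v
        (hA.sub i (i + 2) (by omega) hv)).exit hM hu hvD
      exact ⟨z, by simpa using hzK, fun j _ => hED _ z (hP8 _ hz) j⟩
    have hKN := hS4 (K i) hsat (hA.cdK i) hout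
    have hKB : ∀ u ∈ K i, u ∉ B ∪ ball N B x (n i) := by
      intro u hu hu'
      rcases hu' with hu' | hu'
      · exact Set.disjoint_left.1 (hA.avK i) hu (Or.inl hu')
      · by_cases hc : ∃ j ∈ y, u ∈ D j
        · obtain ⟨j, hj, huj⟩ := hc
          have hij : i < j := by
            by_contra hcon
            exact Set.disjoint_left.1 (hKD j (by omega)) huj hu
          have key : ∀ m, m ≤ n i → ∀ v, v ∈ D j → v ∉ ball N B x m := by
            intro m
            induction m with
            | zero =>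
              intro _ v hv hvx
              have : v = x := hvx
              exact hA.xD j (this ▸ hv)
            | succ m ih =>
              intro hm v hv hvb
              rcases hvb with hvb | ⟨hvB, s, hs, hE⟩
              · exact ih (by omega) v hv hvb
              · by_cases hsD : s ∈ D j
                · exact ih (by omega) s hsD hs
                · have hsN : s ∈ Nb N (D j) := ⟨hsD, v, hv, hE⟩
                  rw [hS3 j hj] at hsN
                  have hsM := (hWL m s (fun l _ => hED j s (hP8 j hsN) l)).2 hs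
                  obtain ⟨-, t, ht, hEt⟩ := hsN
                  have htB : t ∉ B := fun h => Set.disjoint_left.1 (hP2 j) ht h
                  have h1 : t ∈ ball M B x (m + 1) := Or.inr ⟨htB, s, hsM, hEt⟩
                  exact Set.disjoint_left.1 (hA.avK i) (hA.sub i j hij ht)
                    (Or.inr (da_ball_mono hm h1))
          exact key (n i) le_rfl u huj hu'
        · push Not at hc
          exact Set.disjoint_left.1 (hA.avK i) hu (Or.inr ((hWL (n i) u hc).2 hu'))
    have hD'K : ∀ t ∈ D', t ∉ K i := by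
      intro t ht htK
      apply hne
      have hsub : K i ⊆ D' := by
        intro v hv
        by_contra hvD'
        obtain ⟨z, hz, hzK, -, -⟩ := (hKN.2 t htK v hv).exit hNv ht hvD'
        exact hKB z (by simpa using hzK) (hnb hz)
      obtain ⟨n0, hn0, -⟩ := hP9 F hF
      obtain ⟨u, hu⟩ := (H.pd.cpD (max i n0 + 1)).nonempty
      have hu1 : u ∈ D' := hsub (hA.sub i _ (by omega) hu)
      have hu2 : u ∈ w' F := hw'.2 F hF n0 hn0 (hP5 (max i n0 + 1) n0 (by omega) hu)
      exact hcp.eq_of_inter hNv (hw'.1.1 F hF) hu1 hu2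
    refine hFL i F D' hF hcp ?_
    intro j hj hij
    have hij : i < j := lt_of_le_of_ne hij (fun h => hi (h ▸ hj))
    rw [Set.disjoint_left]
    intro t ht htD
    have htK := hA.sub i j hij htD
    rcases ht with ht | ht
    · exact hD'K t ht htK
    · exact hKB t htK (hnb ht)

end Pool.Agent.ST
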