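import Pool.Agent.H75.ST.Stmt
import Pool.Agent.H90.TK.LUN

/-! FLT: flaps which avoid the late pieces are small. -/

set_option autoImplicit false

open Set Pool.Agent.TK

namespace Pool.Agent.ST

theorem pf_FLT {C : Type} [MeasurableSpace C] {c0 : C} (hSAT : SAT C c0) (hLDR2 : LDR2 C c0)
    (hRPF : RPF C c0) : FLT C c0 := by
  classical
  intro b X M w E D a R r H y i F D' hF hcp hav
  have hRDu := hLDR2 b X M w E D a R r H
  have hRD : ∀ y, RD c0 M a D R y := H90.RD_mono hRDu
  have hM := hRDu.val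
  have hNv := (hRPF M a D R y (hRD y)).1
  set s : Set ℕ := {j | j ∈ y ∧ j < i} with hs
  have hsy : s ⊆ y := fun j hj => hj.1
  obtain ⟨hsv, hsg, hsl, -⟩ := hRPF M a D R s (hRD s)
  set W : Set ℕ := {u | ∃ j ∈ y, i ≤ j ∧ u ∈ D j} with hWdef
  have hW : ∀ j ∈ y, j ∉ s → D j ⊆ W := by
    intro j hj hjs u hu
    exact ⟨j, hj, not_lt.1 (fun h => hjs ⟨hj, h⟩), hu⟩
  obtain ⟨g1, g2⟩ := H90.repl_agree hRPF (hRD y) (hRD s) hsy hW
  have hout : ∀ u ∈ D' ∪ Nb (repl c0 M a D R y) D', u ∉ W := by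
    rintro u hu ⟨j, hj, hij, huj⟩
    exact Set.disjoint_left.1 (hav j hj hij) hu huj
  obtain ⟨f1, f2, f3⟩ := (isCp_iff hNv).1 hcp
  have hNbfin : (Nb (repl c0 M a D R y) D').Finite := hF.subset f3
  have hdisN : Disjoint D' (Nb (repl c0 M a D R y) D') := by
    rw [Set.disjoint_left]
    intro u hu hu'
    exact hu'.1 hu
  -- `D'` is a component of the smaller replacement
  have hcs : IsCp (repl c0 M a D R s) (Nb (repl c0 M a D R y) D') D' := by
    rw [isCp_iff hsv]
    refine ⟨H90.cd_agree (fun u hu v hv => g1 u (hout u (Or.inl hu)) v (hout v (Or.inl hv))) f1,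
      hdisN, ?_⟩
    rintro u ⟨hu, t, ht, hut⟩
    by_cases huW : u ∈ W
    · exfalso
      obtain ⟨j, hj, hij, huj⟩ := huW
      have hjs : j ∉ s := fun h => absurd h.2 (not_lt.2 hij)
      obtain ⟨-, -, -, -, hS5⟩ := hSAT b X M w E D a R r H s
      obtain ⟨-, -, hS3, -, -⟩ := hSAT b X M w E D a R r H y
      have hnb : Nb (repl c0 M a D R s) (D j) = Nb M (D j) := by
        refine hS5 (D j) ?_ ?_
        · intro l hl
          refine Or.inr (hRDu.disj l (mem_univ _) j (mem_univ _) ?_)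
          rintro rfl
          exact hjs hl
        · intro l _
          have h1 : Nb M (D j) ⊆ ms (a j) := (hRDu.cpM j (mem_univ _)).nb hM
          exact (hRDu.disjA j (mem_univ _) l (mem_univ _)).mono_left h1
      have htj : t ∉ D j := fun h => hout t (Or.inl ht) ⟨j, hj, hij, h⟩
      have h1 : t ∈ Nb (repl c0 M a D R s) (D j) := ⟨htj, u, huj, by rw [hsv.1]; exact hut⟩
      rw [hnb, ← hS3 j hj] at h1
      obtain ⟨-, v, hv, hvt⟩ := h1
      have hvD' : v ∉ D' := fun h => hout v (Or.inl h) ⟨j, hj, hij, hv⟩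
      exact hout v (Or.inr ⟨hvD', t, ht, by rw [hNv.1]; exact hvt⟩) ⟨j, hj, hij, hv⟩
    · refine ⟨hu, t, ht, ?_⟩
      rw [g1 u huW t (hout t (Or.inl ht))]
      exact hut
  obtain ⟨a'', ha'', -, -⟩ := exists_list hNbfin
  have hcy : IsCp (repl c0 M a D R y) (Nb (repl c0 M a D R y) D') D' :=
    hcp.change hNv (Subset.refl _) hdisN
  have hcs' := hcs
  obtain ⟨v, hv, hvD⟩ := hcs'
  have hva : v ∉ a'' := by
    intro h
    apply hv
    rw [← ha'']
    exact h
  have hsmall : small c0 (r i) (repl c0 M a D R s) a'' D' := by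
    have h0 : D' = cp (repl c0 M a D R s) (ms a'') v := by rw [ha'']; exact hvD
    rw [h0]
    cases i with
    | zero =>
      have hse : ∀ j ∈ s, False := fun j hj => absurd hj.2 (Nat.not_lt_zero _)
      have hMe : repl c0 M a D R s = M := by
        refine Prod.ext ?_ ?_
        · funext u v
          exact hsg u v (fun j hj => (hse j hj).elim) (fun j hj => (hse j hj).elim)
        · funext l
          exact hsl l (fun _ _ j hj => (hse j hj).elim)
      rw [hMe]
      exact H.r0 a'' v hva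
    | succ i' =>
      exact H.rs i' s (fun j hj => Nat.lt_succ_iff.1 hj.2) a'' v hva
  have hFI : FI (repl c0 M a D R s) a'' D' (repl c0 M a D R y) a'' D' := by
    have ho : ∀ u ∈ D' ∪ ms a'', u ∉ W := by
      rw [ha'']
      exact hout
    apply H90.fi_agree
    · intro u hu v hv
      exact (g1 u (ho u hu) v (ho v hv)).symm
    · intro l' hl'
      exact (g2 l' (fun u hu => ho u (hl' u hu))).symm
  exact ⟨a'', by rw [ha'']; exact hcy, hsmall.fi hFI⟩

end Pool.Agent.ST
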