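import Pool.Agent.H75.ST.Stmt

/-! LUN2: the direction is the only one with big components of all ranks `r i`. -/

set_option autoImplicit false

open Set Pool.Agent.TK

namespace Pool.Agent.ST

theorem pf_LUN2 {C : Type} [MeasurableSpace C] {c0 : C} (hFLT : FLT C c0) (hBIG : BIG C c0)
    (hPDB : PDB C c0) (hLRF2 : LRF2 C c0) (hMONO : MONO C c0) (hRPF : RPF C c0)
    (hLDR2 : LDR2 C c0) : LUN2 C c0 := by
  classical
  have _ := hLRF2
  intro b X M w E D a R r H y hy w' hw'
  have hRDu := hLDR2 b X M w E D a R r H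
  have hRD : RD c0 M a D R y :=
    ⟨hRDu.val, fun i _ => hRDu.valR i (mem_univ _), fun i _ => hRDu.cpM i (mem_univ _),
      fun i _ => hRDu.cpR i (mem_univ _), fun i _ => hRDu.pi i (mem_univ _),
      fun i _ j _ => hRDu.disj i (mem_univ _) j (mem_univ _),
      fun i _ j _ => hRDu.disjA i (mem_univ _) j (mem_univ _)⟩
  have hM := hRD.val
  obtain ⟨hNv, -, -, -, -, hNc, -⟩ := hRPF M a D R y hRD
  obtain ⟨-, -, -, -, hP5, -, -, -, hP9, -, -⟩ := hPDB M hM w E D H.pd
  have hFL := hFLT b X M w E D a R r H y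
  have hBG := hBIG b X M w E D a R r H y w' hw'
  generalize repl c0 M a D R y = N at *
  have hrle : ∀ i j, i ≤ j → RLe C (r i) (r j) := by
    intro i j hij
    induction hij with
    | refl => exact RLe.refl _
    | step _ ih => exact ih.trans (H.rle _)
  have hom : ∀ i, RLe C om (r i) := fun i =>
    ((((RLe.lim om).trans (RLe.lim _)).trans H.hyp.base).trans H.rb).trans
      (hrle 0 i (Nat.zero_le _))
  refine ⟨?_, ?_⟩
  · rintro F hF i ⟨a', ha', hsm⟩
    obtain ⟨n, hn, -⟩ := hP9 F hF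
    obtain ⟨j, hj, hjn⟩ := hy.exists_gt (max n i)
    have hnj : n < j := lt_of_le_of_lt (le_max_left _ _) hjn
    have hij : i < j := lt_of_le_of_lt (le_max_right _ _) hjn
    have hDj : D j ⊆ w' F := (hP5 j n hnj).trans (hw'.2 F hF n hn)
    have h1 := hMONO (r i) (hom i) N a' (a j) (w' F) (D j) hNv ha' (hNc j hj) hDj hsm
    exact (hBG j hj).2 ⟨a j, hNc j hj, h1.rank (hrle i j hij.le)⟩
  · intro w'' hw'' hbig F hF
    by_contra hne
    obtain ⟨n, hn, -⟩ := hP9 F hF
    have hF2 : (F ∪ E n).Finite := hF.union (H.pd.fin n)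
    have hdis : Disjoint (w'' F) (w' F) := by
      rw [Set.disjoint_left]
      intro x hx hx'
      exact hne ((hw''.1 F hF).eq_of_inter hNv (hw'.1.1 F hF) hx hx')
    refine hbig (F ∪ E n) hF2 (n + 1) (hFL (n + 1) (F ∪ E n) _ hF2 (hw''.1 _ hF2) ?_)
    intro j hj hnj
    have hDj : D j ⊆ w (E n) := hP5 j n (by omega)
    rw [Set.disjoint_left]
    intro x hx hxj
    rcases hx with hx | hx
    · exact Set.disjoint_left.1 hdis (hw''.2 F (F ∪ E n) hF2 subset_union_left hx)
        (hw'.2 F hF n hn (hDj hxj))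
    · rcases (hw''.1 _ hF2).nb hNv hx with h | h
      · exact Set.disjoint_left.1 hn h (hDj hxj)
      · exact Set.disjoint_left.1 (H.pd.av j n) hxj h

end Pool.Agent.ST
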