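import Pool.Agent.H75.ST.Stmt

/-! PDB: elementary facts on the pieces. -/

set_option autoImplicit false

open Set Pool.Agent.TK

namespace Pool.Agent.ST

theorem pf_PDB {C : Type} {c0 : C} : PDB C c0 := by
  intro M hM w E D H
  have h3 : ∀ i j, i ≤ j → E i ⊆ E j := fun i j hij => monotone_nat_of_le_succ H.mono hij
  have h4 : ∀ i j, i ≤ j → w (E j) ⊆ w (E i) := fun i j hij =>
    H.dir.2 _ _ (H.fin j) (h3 i j hij)
  have hcp : ∀ n, IsCp M (E n) (w (E n)) := fun n => H.dir.1 _ (H.fin n)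
  have h6' : ∀ i, Disjoint (D i) (w (E i)) := by
    intro i
    rw [Set.disjoint_left]
    intro x hx hx'
    exact H.ne i ((H.cpD i).eq_of_inter hM (hcp i) hx hx')
  have h1' : ∀ i j, i < j → Disjoint (D i) (D j) := fun i j hij => (h6' i).mono_right (H.sub i j hij)
  have h8 : ∀ i, Nb M (D i) ⊆ E i := fun i => (H.cpD i).nb hM
  have h9 : ∀ F : Set ℕ, F.Finite → ∃ n, Disjoint F (w (E n)) ∧ w (E n) ⊆ w F := by
    intro F hF
    have h : ∃ n, Disjoint F (w (E n)) := by
      induction F, hF using Set.Finite.induction_on with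
      | empty => exact ⟨0, by simp⟩
      | insert _ _ ih =>
        rename_i a s _ _
        obtain ⟨n, hn⟩ := ih
        obtain ⟨m, hm⟩ := H.exh a
        refine ⟨max n m, ?_⟩
        rw [Set.disjoint_left]
        intro x hx hxw
        rcases hx with rfl | hx
        · exact hm (h4 _ _ (le_max_right _ _) hxw)
        · exact Set.disjoint_left.1 hn hx (h4 _ _ (le_max_left _ _) hxw)
    obtain ⟨n, hn⟩ := h
    refine ⟨n, hn, ?_⟩
    have hf := hF.union (H.fin n)
    obtain ⟨x, hx⟩ := (H.dir.1 _ hf).nonempty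
    exact ((hcp n).cd hM).subset hM (H.dir.1 F hF) hn.symm
      (H.dir.2 _ _ hf subset_union_right hx) (H.dir.2 _ _ hf subset_union_left hx)
  refine ⟨?_, ?_, h3, h4, fun i n hn => H.sub n i hn,
    fun i n hn => (h6' i).mono_right (h4 i n hn), fun n => (hcp n).nb hM, h8, h9, ?_, ?_⟩
  · intro i j hij
    rcases Nat.lt_or_gt_of_ne hij with h | h
    · exact h1' i j h
    · exact (h1' j i h).symm
  · intro i
    rw [Set.disjoint_left]
    intro v hv hvB
    obtain ⟨-, s, hs, hE⟩ := hvB (E i ∪ {v}) ((H.fin i).union (finite_singleton v)) (by simp)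
    have hs' : s ∈ w (E i) :=
      H.dir.2 _ _ ((H.fin i).union (finite_singleton v)) subset_union_left hs
    have hsD : s ∉ D i := fun h => Set.disjoint_left.1 (h6' i) h hs'
    have : s ∈ E i := h8 i ⟨hsD, v, hv, by rw [hM.1]; exact hE⟩
    exact Set.disjoint_left.1 (hcp i).disj hs' this
  · intro v
    constructor
    · intro hv n hn
      obtain ⟨-, s, hs, hE⟩ := hv (E n ∪ {v}) ((H.fin n).union (finite_singleton v)) (by simp)
      exact ⟨hn, s, H.dir.2 _ _ ((H.fin n).union (finite_singleton v)) subset_union_left hs, hE⟩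
    · intro hv A hA hvA
      obtain ⟨n, hn, hn'⟩ := h9 A hA
      obtain ⟨-, s, hs, hE⟩ := hv n (Set.disjoint_left.1 hn hvA)
      exact ⟨fun h => Set.disjoint_left.1 (H.dir.1 A hA).disj h hvA, s, hn' hs, hE⟩
  · intro k hk
    refine ⟨H.dir, fun n => H.fin _, fun n => h3 _ _ (hk.monotone (Nat.le_succ n)), ?_,
      fun i => H.cpD _, fun i => H.ne _, fun i j hij => H.sub _ _ (hk hij), fun i j => H.av _ _⟩
    intro v
    obtain ⟨n, hn⟩ := H.exh v
    exact ⟨n, fun h => hn (h4 _ _ (hk.le_apply) h)⟩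

end Pool.Agent.ST
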