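import Pool.Agent.H75.TK.Asm
import Pool.Agent.H4.ST.BIG
import Pool.Agent.H4.ST.LDR2
import Pool.Agent.H4.ST.LRF2
import Pool.Agent.H4.ST.LS
import Pool.Agent.H14.ST.LDD2
import Pool.Agent.H14.ST.LDX2
import Pool.Agent.H16.ST.UNI
import Pool.Agent.H42.ST.PDX
import Pool.Agent.H66.ST.TRN
import Pool.Agent.H75.ST.AB
import Pool.Agent.H75.ST.DA
import Pool.Agent.H75.ST.FLT
import Pool.Agent.H75.ST.LUN2
import Pool.Agent.H75.ST.PDB
import Pool.Agent.H75.ST.SAT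
import Pool.Agent.H76.ST.DB
import Pool.Agent.H76.ST.KL
import Pool.Agent.H77.ST.WLK

/-! Assembly of the level lemma for arbitrary directions (board stx_modules). -/

set_option autoImplicit false

open Set Pool.Agent.TK

namespace Pool.Agent.ST

theorem kl_all {C : Type} [MeasurableSpace C] {c0 : C} : KL C c0 := by
  have hCOMP : COMP C c0 := pf_COMP
  have hCTR : CTR C := pf_CTR
  have hDIR : DIR C c0 := Pool.Agent.H48.TK.pf_DIR
  have hFISUB : FISUB C c0 := pf_FISUB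
  have hINF : INF C := pf_INF
  have hITR : ITR C c0 := pf_ITR
  have hREL : REL C := pf_REL hCTR
  have hRPF : RPF C c0 := pf_RPF
  have hSC1 : SC1 C := pf_SC1
  have hSC2 : SC2 C := pf_SC2
  have hSCO : SCO C := pf_SCO hSC1 hSC2
  have hTRA : TRA C c0 := pf_TRA
  have hCNT : CNT C c0 := pf_CNT hREL
  have hEXN : EXN C c0 := pf_EXN hTRA hINF
  have hMEA : MEA C c0 := pf_MEA hRPF
  have hMEM : MEM C c0 := pf_MEM hCOMP hRPF
  have hRP1 : RP1 C c0 := pf_RP1 hTRA hRPF hCOMP hCTR hINF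
  have hEXB : EXB C c0 := pf_EXB hEXN hCNT hRPF hMEM
  have hMMK : MMK C c0 := pf_MMK hRP1 hINF
  have hMSUB : MSUB C c0 := pf_MSUB hRP1 hFISUB hINF
  have hMONO : MONO C c0 := pf_MONO hMSUB hMMK
  have hPDX : PDX C c0 := pf_PDX
  have hPDB : PDB C c0 := pf_PDB
  have hLS : LS C c0 := pf_LS
  have hAB : AB C c0 := pf_AB hPDB hLS
  have hLDX2 : LDX2 C c0 := pf_LDX2 hEXB hSCO
  have hLDR2 : LDR2 C c0 := pf_LDR2 hPDB
  have hSAT : SAT C c0 := pf_SAT hCOMP hRPF hCTR hLDR2 hPDB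
  have hLRF2 : LRF2 C c0 := pf_LRF2 hSAT hPDB hRPF hLDR2
  have hLDD2 : LDD2 C c0 := pf_LDD2 hDIR hPDB hLRF2 hRPF hLDR2
  have hFLT : FLT C c0 := pf_FLT hSAT hLDR2 hRPF
  have hBIG : BIG C c0 := pf_BIG hRPF hLDR2 hMMK hPDB hLRF2
  have hLUN2 : LUN2 C c0 := pf_LUN2 hFLT hBIG hPDB hLRF2 hMONO hRPF hLDR2
  have hWLK : WLK C c0 := pf_WLK hSAT
  have hDA : DA C c0 := pf_DA hSAT hWLK hFLT hBIG hLRF2 hPDB hRPF hLDR2
  have hDB : DB C c0 := pf_DB hSAT hFLT hBIG hPDB hRPF hLDR2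
  have hTRN : TRN C c0 := pf_TRN hITR
  have hUNI : UNI C c0 := pf_UNI hLUN2 hITR hRPF hLDR2
  exact pf_KL hPDX hPDB hAB hLDX2 hLDR2 hLDD2 hDA hDB hTRN hUNI hMEA hMEM

end Pool.Agent.ST
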