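import Pool.Agent.H75.ST.Stmt

/-! SAT: saturated sets in the replaced structure. -/

set_option autoImplicit false

open Set Pool.Agent.TK

namespace Pool.Agent.ST

theorem pf_SAT {C : Type} [MeasurableSpace C] {c0 : C} (hCOMP : COMP C c0) (hRPF : RPF C c0)
    (hCTR : CTR C) (hLDR2 : LDR2 C c0) (hPDB : PDB C c0) : SAT C c0 := by
  intro b X M w E D a R r H y
  have hRDu := hLDR2 b X M w E D a R r H
  have hRD : RD c0 M a D R y :=
    ⟨hRDu.val, fun i _ => hRDu.valR i (mem_univ _), fun i _ => hRDu.cpM i (mem_univ _),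
      fun i _ => hRDu.cpR i (mem_univ _), fun i _ => hRDu.pi i (mem_univ _),
      fun i _ j _ => hRDu.disj i (mem_univ _) j (mem_univ _),
      fun i _ j _ => hRDu.disjA i (mem_univ _) j (mem_univ _)⟩
  have hM := hRD.val
  obtain ⟨hNv, hN1, hN2, -, -, hcpN, hFI⟩ := hRPF M a D R y hRD
  generalize repl c0 M a D R y = N at *
  have hrk : RLe C om b := ((RLe.lim om).trans (RLe.lim (Rk.lim om))).trans H.hyp.base
  have hrk1 : RLe C (Rk.suc Rk.zero) b := (RLe.lim' 1 Rk.zero).trans hrk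
  have haD : ∀ i, ∀ x ∈ a i, ∀ j, x ∉ D j := by
    intro i x hx j hxj
    have : x ∈ E i := by rw [← H.msa i]; exact hx
    exact Set.disjoint_left.1 (H.pd.av j i) hxj this
  have hpiece : ∀ i ∈ y, bf M N (D i) (D i) b (dg (a i)) := by
    intro i hi
    have h1 := H.bfR i
    have h2 := ((hFI i hi).symm.fb b).2
    rw [dg_eq_zip] at h1 ⊢
    exact bf_trans rfl rfl h1 h2
  have hcomp : ∀ U : Set ℕ, (∀ i ∈ y, D i ⊆ U ∨ Disjoint (D i) U) →
      ∀ k' : List ℕ, (∀ z ∈ k', ∀ i ∈ y, z ∉ D i) → bf M N U U b (dg k') :=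
    hCOMP M N y a D b hM hNv hRD.disj hRD.disjA (fun i hi => (hRD.cpM i hi).nb hM)
      (fun i hi => (hcpN i hi).nb hNv) (fun u v hu hv => (hN1 u v hu hv).symm)
      (fun l hl => (hN2 l hl).symm) hpiece
  -- neighbours of the pieces
  have hnbD : ∀ i ∈ y, ∀ x, x ∈ Nb M (D i) ↔ x ∈ Nb N (D i) := by
    intro i hi x
    have hb1 := hrk1 _ _ _ _ _ (hpiece i hi)
    constructor
    · intro hx
      have hxa : x ∈ a i := (hRD.cpM i hi).nb hM hx
      obtain ⟨hxD, s, hs, hE⟩ := hx
      obtain ⟨s', hs', h1⟩ := (hb1 0).2.1 s hs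
      refine ⟨hxD, s', hs', ?_⟩
      have h2 := (bf_PI h1).2.1 (x, x) (List.mem_cons_of_mem _ (mem_dg.2 ⟨rfl, hxa⟩)) (s, s')
        List.mem_cons_self
      exact h2.symm.trans hE
    · intro hx
      have hxa : x ∈ a i := (hcpN i hi).nb hNv hx
      obtain ⟨hxD, s', hs', hE⟩ := hx
      obtain ⟨s, hs, h1⟩ := (hb1 0).2.2 s' hs'
      refine ⟨hxD, s, hs, ?_⟩
      have h2 := (bf_PI h1).2.1 (x, x) (List.mem_cons_of_mem _ (mem_dg.2 ⟨rfl, hxa⟩)) (s, s')
        List.mem_cons_self
      exact h2.trans hE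
  refine ⟨hpiece, hcomp, fun i hi => Set.ext fun x => (hnbD i hi x).symm, ?_, ?_⟩
  · -- connectivity
    intro K hsat hK hKout
    have hempty : ms ([] : List ℕ) = ∅ := by ext x; simp
    have hout : ∀ u ∈ K, ∀ v ∈ K, (∀ i ∈ y, u ∉ D i) → (∀ i ∈ y, v ∉ D i) → Conn N Kᶜ u v := by
      intro u hu v hv huD hvD
      have h1 := hrk _ _ _ _ _ (hcomp K hsat [u, v] (by
        intro z hz
        simp only [List.mem_cons, List.not_mem_nil, or_false] at hz
        rcases hz with rfl | rfl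
        exacts [huD, hvD]))
      have h2 := hK.2 u hu v hv
      have h3 := hCTR M N _ _ _ [] [] u u v v h1 rfl (by simp) (mem_dg.2 ⟨rfl, by simp⟩)
        (mem_dg.2 ⟨rfl, by simp⟩) hu hv (by rw [hempty, union_empty]; exact h2)
      rwa [hempty, union_empty] at h3
    obtain ⟨q, hqK, hqD⟩ := hKout
    have hgo : ∀ u ∈ K, ∃ x ∈ K, (∀ i ∈ y, x ∉ D i) ∧ Conn N Kᶜ u x := by
      intro u hu
      by_cases huD : ∃ i ∈ y, u ∈ D i
      · obtain ⟨i, hi, hui⟩ := huD
        have hDi : D i ⊆ K := by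
          rcases hsat i hi with h | h
          · exact h
          · exact absurd hu (Set.disjoint_left.1 h hui)
        obtain ⟨x, hx, hxK, -, -⟩ := (hK.2 u hu q hqK).exit hM hui (hqD i hi)
        have hxK : x ∈ K := by simpa using hxK
        have hxa : x ∈ a i := (hRD.cpM i hi).nb hM hx
        obtain ⟨-, s, hs, hE⟩ := (hnbD i hi x).1 hx
        refine ⟨x, hxK, fun j _ => haD i x hxa j, ?_⟩
        have h1 := ((hcpN i hi).cd hNv).2 u hui s hs
        exact (h1.mono (compl_subset_compl.2 hDi)).step (by rw [hNv.1]; exact hE)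
          (by simpa using hxK)
      · push Not at huD
        exact ⟨u, hu, huD, Conn.refl (by simpa using hu)⟩
    refine ⟨hK.1, ?_⟩
    intro u hu v hv
    obtain ⟨x, hx, hxD, h1⟩ := hgo u hu
    obtain ⟨z, hz, hzD, h2⟩ := hgo v hv
    exact (h1.trans (hout x hx z hz hxD hzD)).trans (h2.symm hNv)
  · -- neighbours
    intro K hsat hKnb
    ext z
    constructor
    · rintro ⟨hz, s, hs, hE⟩
      by_cases hsD : ∃ i ∈ y, s ∈ D i
      · obtain ⟨i, hi, hsi⟩ := hsD
        have hDi : D i ⊆ K := by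
          rcases hsat i hi with h | h
          · exact h
          · exact absurd hs (Set.disjoint_left.1 h hsi)
        obtain ⟨-, s', hs', hE'⟩ := (hnbD i hi z).2 ⟨fun h => hz (hDi h), s, hsi, hE⟩
        exact ⟨hz, s', hDi hs', hE'⟩
      · push Not at hsD
        by_cases hzD : ∃ i ∈ y, z ∈ D i
        · exfalso
          obtain ⟨i, hi, hzi⟩ := hzD
          obtain ⟨-, z', hz', hE'⟩ := (hnbD i hi s).2 ⟨hsD i hi, z, hzi, by rw [hNv.1]; exact hE⟩
          have hdis : Disjoint (D i) K := by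
            rcases hsat i hi with h | h
            · exact absurd (h hzi) hz
            · exact h
          exact Set.disjoint_left.1 (hKnb i hi)
            ⟨Set.disjoint_left.1 hdis hz', s, hs, by rw [hM.1]; exact hE'⟩ hz'
        · push Not at hzD
          exact ⟨hz, s, hs, by rw [← hN1 z s hzD hsD]; exact hE⟩
    · intro hzNb
      have hzD : ∀ i ∈ y, z ∉ D i := fun i hi => Set.disjoint_left.1 (hKnb i hi) hzNb
      obtain ⟨hz, s, hs, hE⟩ := hzNb
      by_cases hsD : ∃ i ∈ y, s ∈ D i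
      · obtain ⟨i, hi, hsi⟩ := hsD
        have hDi : D i ⊆ K := by
          rcases hsat i hi with h | h
          · exact h
          · exact absurd hs (Set.disjoint_left.1 h hsi)
        obtain ⟨-, s', hs', hE'⟩ := (hnbD i hi z).1 ⟨fun h => hz (hDi h), s, hsi, hE⟩
        exact ⟨hz, s', hDi hs', hE'⟩
      · push Not at hsD
        exact ⟨hz, s, hs, by rw [hN1 z s hzD hsD]; exact hE⟩

end Pool.Agent.ST
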