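import Pool.Agent.H16.TK.Stmt2

/-!
Statements for the level lemma for arbitrary directions (key lemma KL of the structure theorem).
Base: the definitions of helper16 (Pool/Agent/H16/TK).  Every module proves one of these
propositions from others, taken as hypotheses.
-/

set_option autoImplicit false

open Set Pool.Agent.TK

namespace Pool.Agent.ST

variable {C : Type}

/-- the vertices at distance at most `m` from `x` in `M - B` -/
def ball (M : St C) (B : Set ℕ) (x : ℕ) : ℕ → Set ℕ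
  | 0 => {x}
  | m + 1 => ball M B x m ∪ {u | u ∉ B ∧ ∃ s ∈ ball M B x m, M.1 s u = true}

/-- a flap off the direction `w` -/
def Off (M : St C) (w : Set ℕ → Set ℕ) (F D : Set ℕ) : Prop :=
  F.Finite ∧ IsCp M F D ∧ D ≠ w F

/-- pieces `D i` off the direction `w` which converge to `w`, with finite sets `E i` -/
structure PD (M : St C) (w : Set ℕ → Set ℕ) (E D : ℕ → Set ℕ) : Prop where
  dir : IsDir M w
  fin : ∀ n, (E n).Finite
  mono : ∀ n, E n ⊆ E (n + 1)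
  exh : ∀ v, ∃ n, v ∉ w (E n)
  cpD : ∀ i, IsCp M (E i) (D i)
  ne : ∀ i, D i ≠ w (E i)
  sub : ∀ i j, i < j → D j ⊆ w (E i)
  av : ∀ i j, Disjoint (D i) (E j)

/-- type beta: the pieces lie in different components of `M - Dm M w` -/
def Beta (M : St C) (w : Set ℕ → Set ℕ) (D : ℕ → Set ℕ) : Prop :=
  ∀ i j, i ≠ j → ∀ u ∈ D i, ∀ v ∈ D j, ¬ Conn M (Dm M w) u v

/-- type alpha: the pieces lie in one component of `M - Dm M w` and converge to an end of it -/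
structure Alpha (M : St C) (w : Set ℕ → Set ℕ) (D : ℕ → Set ℕ) (x : ℕ) (n : ℕ → ℕ)
    (K : ℕ → Set ℕ) : Prop where
  xB : x ∉ Dm M w
  xD : ∀ i, x ∉ D i
  inU : ∀ i, D i ⊆ cp M (Dm M w) x
  nmono : ∀ i, n i ≤ n (i + 1)
  cdK : ∀ i, Cd M (K i)
  avK : ∀ i, Disjoint (K i) (Dm M w ∪ ball M (Dm M w) x (n i))
  sub : ∀ i j, i < j → D j ⊆ K i
  nb : ∀ i, Nb M (D i) ⊆ Dm M w ∪ ball M (Dm M w) x (n i)

/-- the replacement data -/
structure LD2 [MeasurableSpace C] (c0 : C) (b : Rk) (X : Set (St C)) (M : St C)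
    (w : Set ℕ → Set ℕ) (E D : ℕ → Set ℕ) (a : ℕ → List ℕ) (R : ℕ → St C) (r : ℕ → Rk) :
    Prop where
  hyp : Hyp c0 b X
  hM : M ∈ X
  pd : PD M w E D
  msa : ∀ i, ms (a i) = E i
  valR : ∀ i, Valid c0 (R i)
  cpR : ∀ i, IsCp (R i) (ms (a i)) (D i)
  pi : ∀ i, PI M (R i) (dg (a i))
  bfR : ∀ i, bf M (R i) (D i) (D i) b (dg (a i))
  big : ∀ i, ¬ small c0 (r i) (R i) (a i) (D i)
  rle : ∀ i, RLe C (r i) (r (i + 1))
  rb : RLe C b (r 0)
  r0 : ∀ (a' : List ℕ) (v : ℕ), v ∉ a' → small c0 (r 0) M a' (cp M (ms a') v)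
  rs : ∀ i, ∀ s : Set ℕ, (∀ j ∈ s, j ≤ i) → ∀ (a' : List ℕ) (v : ℕ), v ∉ a' →
    small c0 (r (i + 1)) (repl c0 M a D R s) a' (cp (repl c0 M a D R s) (ms a') v)

/-- the direction `w'` of the replaced structure -/
def Dir2 (N : St C) (w : Set ℕ → Set ℕ) (E : ℕ → Set ℕ) (w' : Set ℕ → Set ℕ) : Prop :=
  IsDir N w' ∧ (∀ F : Set ℕ, F.Finite → ∀ n, Disjoint F (w (E n)) → w (E n) ⊆ w' F)

/-! ### graphs -/

/-- PDX: existence of the pieces (for any property `Q` of sets). -/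
def PDX (C : Type) (c0 : C) : Prop :=
  ∀ (M : St C), Valid c0 M → ∀ w, IsDir M w → ∀ Q : Set ℕ → Prop,
    (∀ A : Set ℕ, A.Finite → ∃ F D, Off M w F D ∧ D ⊆ w A ∧ Q D) →
    ∃ E D, PD M w E D ∧ ∀ i, Q (D i)

/-- PDB: elementary facts on the pieces; subsequences. -/
def PDB (C : Type) (c0 : C) : Prop :=
  ∀ (M : St C), Valid c0 M → ∀ w E D, PD M w E D →
    (∀ i j, i ≠ j → Disjoint (D i) (D j)) ∧
    (∀ i, Disjoint (D i) (Dm M w)) ∧
    (∀ i j, i ≤ j → E i ⊆ E j) ∧ (∀ i j, i ≤ j → w (E j) ⊆ w (E i)) ∧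
    (∀ i n, n < i → D i ⊆ w (E n)) ∧ (∀ i n, i ≤ n → Disjoint (D i) (w (E n))) ∧
    (∀ n, Nb M (w (E n)) ⊆ E n) ∧ (∀ i, Nb M (D i) ⊆ E i) ∧
    (∀ F : Set ℕ, F.Finite → ∃ n, Disjoint F (w (E n)) ∧ w (E n) ⊆ w F) ∧
    (∀ v, v ∈ Dm M w ↔ ∀ n, v ∉ w (E n) → v ∈ Nb M (w (E n))) ∧
    ∀ k : ℕ → ℕ, StrictMono k → PD M w (fun i => E (k i)) (fun i => D (k i))

/-- LS: a vertex outside `Dm M w` is near to only finitely many pieces. -/
def LS (C : Type) (c0 : C) : Prop :=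
  ∀ (M : St C), Valid c0 M → ∀ w, IsDir M w → ∀ (J : Set ℕ) (D K : ℕ → Set ℕ),
    (∀ F : Set ℕ, F.Finite → {i ∈ J | ¬ D i ⊆ w F}.Finite) →
    (∀ i ∈ J, (D i).Nonempty ∧ D i ⊆ K i ∧ Cd M (K i)) →
    (∀ i ∈ J, ∀ j ∈ J, i ≠ j → Disjoint (K i) (K j)) →
    ∀ m, ∀ z, z ∉ Dm M w → {i ∈ J | (ball M (Dm M w) z m ∩ K i).Nonempty}.Finite

/-- AB: a subsequence of the pieces is of type beta or of type alpha. -/
def AB (C : Type) (c0 : C) : Prop :=
  ∀ (M : St C), Valid c0 M → ∀ w E D, PD M w E D →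
    ∃ k : ℕ → ℕ, StrictMono k ∧ (Beta M w (fun i => D (k i)) ∨
      ∃ x n K, Alpha M w (fun i => D (k i)) x n K)

/-! ### the replaced structures -/

/-- LDX2: existence of the replacement data. -/
def LDX2 (C : Type) (c0 : C) [MeasurableSpace C] : Prop :=
  ∀ (b : Rk) (X : Set (St C)), Hyp c0 b X → ∀ M ∈ X, ∀ w E D, PD M w E D →
    (∀ i, ¬ Sm c0 b M (D i)) → ∃ a R r, LD2 c0 b X M w E D a R r

/-- LDR2: the data are admissible. -/
def LDR2 (C : Type) (c0 : C) [MeasurableSpace C] : Prop :=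
  ∀ (b : Rk) (X : Set (St C)) M w E D a R r, LD2 c0 b X M w E D a R r →
    RD c0 M a D R univ

/-- SAT: saturated sets in the replaced structure. -/
def SAT (C : Type) (c0 : C) [MeasurableSpace C] : Prop :=
  ∀ (b : Rk) (X : Set (St C)) M w E D a R r, LD2 c0 b X M w E D a R r → ∀ y : Set ℕ,
    (∀ i ∈ y, bf M (repl c0 M a D R y) (D i) (D i) b (dg (a i))) ∧
    (∀ U : Set ℕ, (∀ i ∈ y, D i ⊆ U ∨ Disjoint (D i) U) →
      ∀ k' : List ℕ, (∀ z ∈ k', ∀ i ∈ y, z ∉ D i) →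
      bf M (repl c0 M a D R y) U U b (dg k')) ∧
    (∀ i ∈ y, Nb (repl c0 M a D R y) (D i) = Nb M (D i)) ∧
    (∀ K : Set ℕ, (∀ i ∈ y, D i ⊆ K ∨ Disjoint (D i) K) → Cd M K →
      (∃ u ∈ K, ∀ i ∈ y, u ∉ D i) → Cd (repl c0 M a D R y) K) ∧
    (∀ K : Set ℕ, (∀ i ∈ y, D i ⊆ K ∨ Disjoint (D i) K) →
      (∀ i ∈ y, Disjoint (Nb M K) (D i)) → Nb (repl c0 M a D R y) K = Nb M K)

/-- LRF2: the sides of the finite sets `E n`. -/
def LRF2 (C : Type) (c0 : C) [MeasurableSpace C] : Prop :=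
  ∀ (b : Rk) (X : Set (St C)) M w E D a R r, LD2 c0 b X M w E D a R r → ∀ y : Set ℕ,
    (∀ n, IsCp (repl c0 M a D R y) (E n) (w (E n))) ∧
    (∀ n, Nb (repl c0 M a D R y) (w (E n)) = Nb M (w (E n)))

/-- LDD2: the direction of the replaced structure. -/
def LDD2 (C : Type) (c0 : C) [MeasurableSpace C] : Prop :=
  ∀ (b : Rk) (X : Set (St C)) M w E D a R r, LD2 c0 b X M w E D a R r → ∀ y : Set ℕ,
    (∃ w', Dir2 (repl c0 M a D R y) w E w') ∧
    ∀ w', Dir2 (repl c0 M a D R y) w E w' →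
      (∀ n, w' (E n) = w (E n)) ∧ Dm (repl c0 M a D R y) w' = Dm M w

/-- LUN2: the direction is the only one with big components of all ranks `r i`. -/
def LUN2 (C : Type) (c0 : C) [MeasurableSpace C] : Prop :=
  ∀ (b : Rk) (X : Set (St C)) M w E D a R r, LD2 c0 b X M w E D a R r → ∀ y : Set ℕ,
    y.Infinite → ∀ w', Dir2 (repl c0 M a D R y) w E w' →
      (∀ F : Set ℕ, F.Finite → ∀ i, ¬ Sm c0 (r i) (repl c0 M a D R y) (w' F)) ∧
      ∀ w'', IsDir (repl c0 M a D R y) w'' →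
        (∀ F : Set ℕ, F.Finite → ∀ i, ¬ Sm c0 (r i) (repl c0 M a D R y) (w'' F)) →
        ∀ F : Set ℕ, F.Finite → w'' F = w' F

/-- FLT: flaps which avoid the late pieces are small. -/
def FLT (C : Type) (c0 : C) [MeasurableSpace C] : Prop :=
  ∀ (b : Rk) (X : Set (St C)) M w E D a R r, LD2 c0 b X M w E D a R r → ∀ y : Set ℕ,
    ∀ i F D', F.Finite → IsCp (repl c0 M a D R y) F D' →
      (∀ j ∈ y, i ≤ j → Disjoint (D' ∪ Nb (repl c0 M a D R y) D') (D j)) →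
      Sm c0 (r i) (repl c0 M a D R y) D'

/-- BIG: the pieces are flaps of the replaced structure off the direction and are not small. -/
def BIG (C : Type) (c0 : C) [MeasurableSpace C] : Prop :=
  ∀ (b : Rk) (X : Set (St C)) M w E D a R r, LD2 c0 b X M w E D a R r → ∀ y : Set ℕ,
    ∀ w', Dir2 (repl c0 M a D R y) w E w' → ∀ i ∈ y,
      Off (repl c0 M a D R y) w' (E i) (D i) ∧ ¬ Sm c0 (r i) (repl c0 M a D R y) (D i)

/-- WLK: distances between points outside the pieces do not change. -/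
def WLK (C : Type) (c0 : C) [MeasurableSpace C] : Prop :=
  ∀ (b : Rk) (X : Set (St C)) M w E D a R r, LD2 c0 b X M w E D a R r → ∀ y : Set ℕ,
    ∀ B : Set ℕ, (∀ i ∈ y, Disjoint (D i) B) → ∀ x, x ∉ B → (∀ i ∈ y, x ∉ D i) →
      ∀ m u, (∀ i ∈ y, u ∉ D i) → (u ∈ ball M B x m ↔ u ∈ ball (repl c0 M a D R y) B x m)

/-! ### decoding -/

/-- the decoding formula of type alpha -/
def DecA (c0 : C) (r : ℕ → Rk) (N : St C) (w' : Set ℕ → Set ℕ) (B : Set ℕ) (x : ℕ)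
    (n : ℕ → ℕ) (i : ℕ) : Prop :=
  ∃ F D', Off N w' F D' ∧ D' ⊆ cp N B x ∧ Nb N D' ⊆ B ∪ ball N B x (n i) ∧
    ¬ Sm c0 (r i) N D'

/-- the decoding formula of type beta -/
def DecB (c0 : C) (r : ℕ → Rk) (N : St C) (w' : Set ℕ → Set ℕ) (B : Set ℕ) (i : ℕ) : Prop :=
  ∃ v, v ∉ B ∧ (∃ F D', Off N w' F D' ∧ D' ⊆ cp N B v ∧ ¬ Sm c0 (r i) N D') ∧
    ∀ F D', Off N w' F D' → D' ⊆ cp N B v → Sm c0 (r (i + 1)) N D'

/-- DA: decoding of type alpha. -/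
def DA (C : Type) (c0 : C) [MeasurableSpace C] : Prop :=
  ∀ (b : Rk) (X : Set (St C)) M w E D a R r, LD2 c0 b X M w E D a R r →
    ∀ x n K, Alpha M w D x n K → ∀ y : Set ℕ, y.Infinite →
    ∀ w', Dir2 (repl c0 M a D R y) w E w' →
      ∀ i, (i ∈ y ↔ DecA c0 r (repl c0 M a D R y) w' (Dm M w) x n i)

/-- DB: decoding of type beta. -/
def DB (C : Type) (c0 : C) [MeasurableSpace C] : Prop :=
  ∀ (b : Rk) (X : Set (St C)) M w E D a R r, LD2 c0 b X M w E D a R r →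
    Beta M w D → ∀ y : Set ℕ, y.Infinite →
    ∀ w', Dir2 (repl c0 M a D R y) w E w' →
      ∀ i, (i ∈ y ↔ DecB c0 r (repl c0 M a D R y) w' (Dm M w) i)

/-- TRN: transport by isomorphisms. -/
def TRN (C : Type) (c0 : C) : Prop :=
  ∀ (h : Equiv.Perm ℕ) (N N' : St C), Valid c0 N → Valid c0 N' → IsoH h N N' →
    ∀ w w' : Set ℕ → Set ℕ, IsDir N w → (∀ F : Set ℕ, F.Finite → w' (h '' F) = h '' w F) →
      Dm N' w' = h '' Dm N w ∧
      (∀ B x m, ball N' (h '' B) (h x) m = h '' ball N B x m) ∧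
      (∀ (r : ℕ → Rk) B x n i, DecA c0 r N w B x n i → DecA c0 r N' w' (h '' B) (h x) n i) ∧
      ∀ (r : ℕ → Rk) B i, DecB c0 r N w B i → DecB c0 r N' w' (h '' B) i

/-- UNI: isomorphisms respect the directions. -/
def UNI (C : Type) (c0 : C) [MeasurableSpace C] : Prop :=
  ∀ (b : Rk) (X : Set (St C)) M w E D a R r, LD2 c0 b X M w E D a R r → ∀ y z : Set ℕ,
    y.Infinite → z.Infinite → ∀ w' w'', Dir2 (repl c0 M a D R y) w E w' →
    Dir2 (repl c0 M a D R z) w E w'' → ∀ h : Equiv.Perm ℕ,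
    IsoH h (repl c0 M a D R y) (repl c0 M a D R z) →
    ∀ F : Set ℕ, F.Finite → w'' (h '' F) = h '' w' F

/-- KL: the level lemma for arbitrary directions. -/
def KL (C : Type) (c0 : C) [MeasurableSpace C] : Prop :=
  ∀ (b : Rk) (X : Set (St C)), Hyp c0 b X → ∀ M ∈ X, ∀ w, IsDir M w →
    ∃ A : Set ℕ, A.Finite ∧ ∀ F D, Off M w F D → D ⊆ w A → Sm c0 b M D

end Pool.Agent.ST
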